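import Pool.Agent.SP91.Acyc
import Pool.Agent.SP91.Count
import Pool.Agent.SP91.Ribbon

/-!
# MP_49bc13_co: the symmetry conjecture for labelled posets whose Hasse diagram is a forest

Let `(P, ω)` be a finite labelled poset whose Hasse diagram has no cycle. If the generating function
of its `(P, ω)`-partitions is symmetric, then any two different Hasse neighbours of an element have
labels on different sides of its label (so that `P` is a disjoint union of ribbons), and `P` can be
identified with the cells of a skew shape such that the `(P, ω)`-partitions are the semistandard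
fillings.
-/

set_option autoImplicit false

namespace Pool.Agent.Results.MP_49bc13_co.ForestHasse

open Pool.SP91

theorem result :
    ∀ (P : Type) [Fintype P] [PartialOrder P] (ω : P ≃ Fin (Fintype.card P)),
      (SimpleGraph.hasse P).IsAcyclic →
      (∀ (α : ℕ → ℕ) (σ : Equiv.Perm ℕ),
        Nat.card {f : P → ℕ // (∀ s t : P, s < t → f s ≤ f t) ∧
            (∀ s t : P, s < t → ω t < ω s → f s < f t) ∧
            ∀ i : ℕ, Nat.card {x : P // f x = i} = α i}
          = Nat.card {f : P → ℕ // (∀ s t : P, s < t → f s ≤ f t) ∧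
            (∀ s t : P, s < t → ω t < ω s → f s < f t) ∧
            ∀ i : ℕ, Nat.card {x : P // f x = i} = α (σ i)}) →
      (∀ x y z : P, (SimpleGraph.hasse P).Adj x y → (SimpleGraph.hasse P).Adj x z → y ≠ z →
        (ω y < ω x ∧ ω x < ω z) ∨ (ω z < ω x ∧ ω x < ω y)) ∧
      ∃ (lam mu : YoungDiagram) (e : P ≃ ↥(lam.cells \ mu.cells)), mu ≤ lam ∧
        ∀ f : P → ℕ,
          ((∀ s t : P, s < t → f s ≤ f t) ∧
            (∀ s t : P, s < t → ω t < ω s → f s < f t)) ↔
          ((∀ s t : P, (e s).1.1 = (e t).1.1 → (e s).1.2 < (e t).1.2 → f s ≤ f t) ∧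
            (∀ s t : P, (e s).1.2 = (e t).1.2 → (e s).1.1 < (e t).1.1 → f s < f t)) := by
  intro P _ _ ω hG hsym
  let w : P → ℕ := fun x => (ω x : ℕ)
  have hw : Function.Injective w := by
    intro x y h
    exact ω.injective (Fin.ext h)
  have hF : Frst (P := P) w := frst_of_acyclic hG
  have hS : SymAt w (Finset.univ : Finset P) := by
    apply symAt_of_cnt hw
    intro α σ
    exact hsym α σ
  have hcv : Cvx (Finset.univ : Finset P) := fun _ _ _ _ _ _ _ => Finset.mem_univ _
  obtain ⟨d1, d2⟩ := forest_degrees hw hF hcv hS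
  have hin : In1 w := fun x y y' h1 h2 =>
    d1 x (Finset.mem_univ _) y (Finset.mem_univ _) y' (Finset.mem_univ _) h1 h2
  have hout : Out1 w := fun x y y' h1 h2 =>
    d2 x (Finset.mem_univ _) y (Finset.mem_univ _) y' (Finset.mem_univ _) h1 h2
  refine ⟨?_, exists_skew hw hin hout⟩
  intro x y z hxy hxz hne
  rw [SimpleGraph.hasse_adj] at hxy hxz
  have nxy : ω y ≠ ω x := by
    intro h
    have := ω.injective h
    subst this
    rcases hxy with h | h <;> exact lt_irrefl _ h.lt
  have nxz : ω z ≠ ω x := by
    intro h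
    have := ω.injective h
    subst this
    rcases hxz with h | h <;> exact lt_irrefl _ h.lt
  rcases lt_or_gt_of_ne nxy with h1 | h1
  · rcases lt_or_gt_of_ne nxz with h2 | h2
    · exact absurd (hin x y z ⟨hxy.symm, h1⟩ ⟨hxz.symm, h2⟩) hne
    · exact Or.inl ⟨h1, h2⟩
  · rcases lt_or_gt_of_ne nxz with h2 | h2
    · exact Or.inr ⟨h2, h1⟩
    · exact absurd (hout x y z ⟨hxy, h1⟩ ⟨hxz, h2⟩) hne

end Pool.Agent.Results.MP_49bc13_co.ForestHasse
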